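import Pool.Agent.H87.EBK.Stmts

/-!
# Board `ebk`, row DBL: doubling
-/

set_option autoImplicit false

namespace Pool.EBK

private theorem dbl_mul {x y : ℚ} (hx : x ≠ 0) (hy : y ≠ 0) : v (x * y) = v x + v y :=
  padicValRat.mul hx hy

private theorem dbl_div {x y : ℚ} (hx : x ≠ 0) (hy : y ≠ 0) : v (x / y) = v x - v y :=
  padicValRat.div hx hy

private theorem dbl_sq {x : ℚ} (hx : x ≠ 0) : v (x ^ 2) = 2 * v x := by
  rw [sq, dbl_mul hx hx, two_mul]

private theorem dbl_v (hVNE : VNE) {a c u : ℚ} (ha : 0 < a) (hc : 0 < c) (hu : 0 < u)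
    (h : a ^ 2 + c ^ 2 = u ^ 2) : v u = min (v a) (v c) := by
  have hne : v a ≠ v c := by
    have h1 := hVNE a c ⟨ha, hc, u, by rw [h, sq]⟩
    intro h2
    rcases h1 with h1 | h1
    · rw [h2] at h1
      omega
    · rw [h2] at h1
      omega
  have h1 : v (a ^ 2) = 2 * v a := dbl_sq ha.ne'
  have h2 : v (c ^ 2) = 2 * v c := dbl_sq hc.ne'
  have h3 : v (u ^ 2) = 2 * v u := dbl_sq hu.ne'
  have h4 : v (a ^ 2 + c ^ 2) = min (v (a ^ 2)) (v (c ^ 2)) := by
    apply padicValRat.add_eq_min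
    · positivity
    · positivity
    · positivity
    · change v (a ^ 2) ≠ v (c ^ 2)
      rw [h1, h2]
      omega
  rw [h, h3, h1, h2] at h4
  omega

theorem dbl (hVNE : VNE) (hFER : FER) : DBL := by
  rintro a b c ⟨ha, hb, hab⟩ ⟨hc, ⟨u0, hu0⟩, ⟨w0, hw0⟩⟩
  have hu : (|u0|) ^ 2 = a ^ 2 + c ^ 2 := by
    rw [sq_abs, hu0, sq]
  have hw : (|w0|) ^ 2 = b ^ 2 + c ^ 2 := by
    rw [sq_abs, hw0, sq]
  have hup : 0 < |u0| := by
    rw [abs_pos]
    rintro rfl
    have : 0 < a ^ 2 + c ^ 2 := by positivity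
    rw [hu0] at this
    simp at this
  have hwp : 0 < |w0| := by
    rw [abs_pos]
    rintro rfl
    have : 0 < b ^ 2 + c ^ 2 := by positivity
    rw [hw0] at this
    simp at this
  generalize |u0| = u at hu hup
  generalize |w0| = w at hw hwp
  have hne : c ^ 4 - a ^ 2 * b ^ 2 ≠ 0 := by
    have h1 : c ^ 4 - a ^ 2 * b ^ 2 = (c ^ 2 - a * b) * (c ^ 2 + a * b) := by ring
    rw [h1]
    apply mul_ne_zero
    · exact sub_ne_zero.mpr (hFER a b c ⟨ha, hb, hab⟩)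
    · positivity
  have hden : 0 < 2 * c * u * w := by positivity
  refine ⟨|c ^ 4 - a ^ 2 * b ^ 2| / (2 * c * u * w), ⟨div_pos (abs_pos.mpr hne) hden,
    ⟨(c ^ 4 + 2 * c ^ 2 * a ^ 2 + a ^ 2 * b ^ 2) / (2 * c * u * w), ?_⟩,
    ⟨(c ^ 4 + 2 * c ^ 2 * b ^ 2 + a ^ 2 * b ^ 2) / (2 * c * u * w), ?_⟩⟩, ?_⟩
  · rw [div_pow, sq_abs, div_mul_div_comm, ← sq (2 * c * u * w)]
    rw [eq_div_iff (by positivity), add_mul, div_mul_cancel₀ _ (by positivity)]
    have h1 : (2 * c * u * w) ^ 2 = 4 * c ^ 2 * (a ^ 2 + c ^ 2) * (b ^ 2 + c ^ 2) := by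
      rw [← hu, ← hw]
      ring
    rw [h1]
    ring
  · rw [div_pow, sq_abs, div_mul_div_comm, ← sq (2 * c * u * w)]
    rw [eq_div_iff (by positivity), add_mul, div_mul_cancel₀ _ (by positivity)]
    have h1 : (2 * c * u * w) ^ 2 = 4 * c ^ 2 * (a ^ 2 + c ^ 2) * (b ^ 2 + c ^ 2) := by
      rw [← hu, ← hw]
      ring
    rw [h1]
    ring
  · have habs : v (|c ^ 4 - a ^ 2 * b ^ 2|) = v (c ^ 4 - a ^ 2 * b ^ 2) := by
      rcases abs_choice (c ^ 4 - a ^ 2 * b ^ 2) with h | h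
      · rw [h]
      · rw [h]
        exact padicValRat.neg _
    have h2 : v (2 : ℚ) = 1 := by
      have := padicValRat.self (p := 2) (by norm_num)
      exact_mod_cast this
    have hvu : v u = min (v a) (v c) := dbl_v hVNE ha hc hup hu.symm
    have hvw : v w = min (v b) (v c) := dbl_v hVNE hb hc hwp hw.symm
    have h3 : v (2 * c * u * w) = 1 + v c + v u + v w := by
      rw [dbl_mul (by positivity) hwp.ne', dbl_mul (by positivity) hup.ne',
        dbl_mul (by norm_num) hc.ne']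
      rw [h2]
    rw [dbl_div (abs_pos.mpr hne).ne' hden.ne', habs, h3, hvu, hvw]
    ring

end Pool.EBK
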